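import Mathlib

/-!
# MP_8cd1d0_an : a space with the small ball property whose `SNA` contains a Hilbert space

* `M` is a dense `G_δ` subset of `ℓ²`, `M = ⋂ₙ ⋃_{k ≥ n} B(d_k, 1/(k+1))`, with the norm metric;
  by Baire, `M - M = ℓ²`, so every continuous linear functional strongly attains its norm on `M`.
* An infinite-dimensional Hilbert space is not isomorphic to a polyhedral Banach space; we give a
  self-contained proof (Baire category in the norm topology and in the weak topology of the ball).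
-/

open Filter Topology Set
open scoped lp ENNReal RealInnerProductSpace

namespace Pool.Agent.Results.MP_8cd1d0_an.HilbertInSNA

/-! ### Definitions -/

/-- `M` has the small ball property. -/
def SmallBall (M : Type*) [MetricSpace M] : Prop :=
  ∀ ε : ℝ, 0 < ε → ∃ (x : ℕ → M) (r : ℕ → ℝ),
    (⋃ n, Metric.closedBall (x n) (r n)) = univ ∧ (∀ n, 0 < r n ∧ r n < ε) ∧
      Tendsto r atTop (𝓝 0)

/-- The vector space of Lipschitz functions vanishing at the base point. -/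
def LipSub (M : Type*) [MetricSpace M] (o : M) : Submodule ℝ (M → ℝ) where
  carrier := {f | f o = 0 ∧ ∃ C : ℝ, ∀ x y, |f x - f y| ≤ C * dist x y}
  add_mem' := by
    rintro f g ⟨hf, C, hC⟩ ⟨hg, C', hC'⟩
    refine ⟨by simp [hf, hg], C + C', fun x y => ?_⟩
    have e : (f + g) x - (f + g) y = (f x - f y) + (g x - g y) := by simp; ring
    rw [e, add_mul]
    exact (abs_add_le _ _).trans (add_le_add (hC x y) (hC' x y))
  zero_mem' := ⟨rfl, 0, by simp⟩
  smul_mem' := by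
    rintro c f ⟨hf, C, hC⟩
    refine ⟨by simp [hf], |c| * C, fun x y => ?_⟩
    have e : (c • f) x - (c • f) y = c * (f x - f y) := by simp; ring
    rw [e, abs_mul, mul_assoc]
    exact mul_le_mul_of_nonneg_left (hC x y) (abs_nonneg _)

/-- The space `Lip₀(M)` (a type synonym of `LipSub M o`, so that its topology is the one given by
the norm below and not the product topology). -/
def Lip0 (M : Type*) [MetricSpace M] (o : M) : Type _ := LipSub M o

section Lip

variable {M : Type*} [MetricSpace M] {o : M}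

instance : AddCommGroup (Lip0 M o) := inferInstanceAs (AddCommGroup (LipSub M o))

instance : Module ℝ (Lip0 M o) := inferInstanceAs (Module ℝ (LipSub M o))

/-- The best Lipschitz constant. -/
noncomputable def lipNorm (f : Lip0 M o) : ℝ :=
  ⨆ p : {p : M × M // p.1 ≠ p.2}, |f.1 p.1.1 - f.1 p.1.2| / dist p.1.1 p.1.2

lemma lip_bdd (f : Lip0 M o) : BddAbove (range fun p : {p : M × M // p.1 ≠ p.2} =>
    |f.1 p.1.1 - f.1 p.1.2| / dist p.1.1 p.1.2) := by
  obtain ⟨C, hC⟩ := f.2.2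
  refine ⟨C, ?_⟩
  rintro _ ⟨p, rfl⟩
  have : 0 < dist p.1.1 p.1.2 := dist_pos.2 p.2
  simp only
  rw [div_le_iff₀ this]
  exact hC _ _

lemma lipNorm_nonneg (f : Lip0 M o) : 0 ≤ lipNorm f :=
  Real.iSup_nonneg fun p => by positivity

lemma le_lipNorm (f : Lip0 M o) (x y : M) : |f.1 x - f.1 y| ≤ lipNorm f * dist x y := by
  by_cases h : x = y
  · subst h; simp
  · have h1 : |f.1 x - f.1 y| / dist x y ≤ lipNorm f := le_ciSup (lip_bdd f) ⟨(x, y), h⟩
    rwa [div_le_iff₀ (dist_pos.2 h)] at h1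

lemma lipNorm_le {f : Lip0 M o} {C : ℝ} (hC : 0 ≤ C) (h : ∀ x y, |f.1 x - f.1 y| ≤ C * dist x y) :
    lipNorm f ≤ C := by
  refine Real.iSup_le (fun p => ?_) hC
  have : 0 < dist p.1.1 p.1.2 := dist_pos.2 p.2
  rw [div_le_iff₀ this]
  exact h _ _

/-- The norm of `Lip₀(M)`. -/
noncomputable def lipGroupNorm : AddGroupNorm (Lip0 M o) where
  toFun := lipNorm
  map_zero' := by
    refine le_antisymm (lipNorm_le le_rfl fun x y => ?_) (lipNorm_nonneg _)
    show |(0:ℝ) - 0| ≤ _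
    simp
  add_le' := fun f g => by
    refine lipNorm_le (add_nonneg (lipNorm_nonneg _) (lipNorm_nonneg _)) fun x y => ?_
    have e : (f + g).1 x - (f + g).1 y = (f.1 x - f.1 y) + (g.1 x - g.1 y) := by
      show (f.1 x + g.1 x) - (f.1 y + g.1 y) = _
      ring
    rw [e, add_mul]
    exact (abs_add_le _ _).trans (add_le_add (le_lipNorm f x y) (le_lipNorm g x y))
  neg' := fun f => by
    unfold lipNorm
    congr 1
    funext p
    have e : (-f).1 p.1.1 - (-f).1 p.1.2 = -(f.1 p.1.1 - f.1 p.1.2) := by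
      show -f.1 p.1.1 - -f.1 p.1.2 = _
      ring
    rw [e, abs_neg]
  eq_zero_of_map_eq_zero' := fun f hf => by
    apply Subtype.ext
    funext x
    have h1 := le_lipNorm f x o
    rw [show lipNorm f = 0 from hf, zero_mul, f.2.1, sub_zero] at h1
    have h2 : f.1 x = 0 := abs_nonpos_iff.1 h1
    exact h2

noncomputable instance : NormedAddCommGroup (Lip0 M o) := lipGroupNorm.toNormedAddCommGroup

lemma norm_def (f : Lip0 M o) : ‖f‖ = lipNorm f := rfl

noncomputable instance : NormedSpace ℝ (Lip0 M o) where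
  norm_smul_le := fun c f => by
    rw [norm_def, norm_def]
    refine lipNorm_le (mul_nonneg (norm_nonneg _) (lipNorm_nonneg _)) fun x y => ?_
    have e : (c • f).1 x - (c • f).1 y = c * (f.1 x - f.1 y) := by
      show c * f.1 x - c * f.1 y = _
      ring
    rw [e, abs_mul, mul_assoc]
    exact mul_le_mul_of_nonneg_left (le_lipNorm f x y) (abs_nonneg _)

/-- `f` strongly attains its norm. -/
def SNA (f : Lip0 M o) : Prop :=
  ∃ x y : M, x ≠ y ∧ ‖f‖ = |f.1 x - f.1 y| / dist x y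

end Lip

/-- A Banach space is polyhedral if the unit ball of each finite-dimensional subspace is a
polytope (the convex hull of a finite set). -/
def Polyhedral (P : Type*) [NormedAddCommGroup P] [NormedSpace ℝ P] : Prop :=
  ∀ F : Submodule ℝ P, FiniteDimensional ℝ F →
    ∃ S : Finset P, {x | x ∈ F ∧ ‖x‖ ≤ 1} = convexHull ℝ (S : Set P)

/-! ### Polyhedral spaces -/

section poly

variable {P : Type*} [NormedAddCommGroup P] [NormedSpace ℝ P]

/-- functionals of norm at most one -/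
def Sub (f : P →L[ℝ] ℝ) : Prop := ∀ z, f z ≤ ‖z‖

lemma exists_norming (v : P) : ∃ g : P →L[ℝ] ℝ, Sub g ∧ g v = ‖v‖ := by
  obtain ⟨g, hg, hgv⟩ := exists_dual_vector'' ℝ v
  refine ⟨g, fun z => ?_, by simpa using hgv⟩
  have h1 : g z ≤ ‖g z‖ := Real.le_norm_self _
  have h2 := g.le_opNorm z
  have h3 : ‖g‖ * ‖z‖ ≤ 1 * ‖z‖ := by gcongr
  linarith

/-- The norm of a polyhedral space is locally affine along rays. -/
lemma ray (hP : Polyhedral P) (x y : P) : ∃ f : P →L[ℝ] ℝ, Sub f ∧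
    ∃ ε : ℝ, 0 < ε ∧ ∀ t : ℝ, 0 ≤ t → t ≤ ε → ‖x + t • y‖ = f x + t * f y := by
  classical
  obtain ⟨S, hS⟩ := hP (Submodule.span ℝ {x, y})
    (FiniteDimensional.span_of_finite ℝ (Set.toFinite _))
  choose g hg1 hg2 using fun v : P => exists_norming v
  set v : ℕ → P := fun k => x + (1 / ((k:ℝ) + 1)) • y with hv
  set T : ℕ → Set S := fun k => {s | g (v k) s.1 = 1} with hT
  obtain ⟨T0, hT0⟩ := Finite.exists_infinite_fiber T
  have hinf : (T ⁻¹' {T0}).Infinite := Set.infinite_coe_iff.1 hT0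
  obtain ⟨k1, hk1⟩ := hinf.nonempty
  set f := g (v k1) with hf
  have hSball : ∀ s ∈ S, ‖s‖ ≤ 1 := by
    intro s hs
    have h1 : s ∈ convexHull ℝ (S : Set P) := subset_convexHull ℝ _ (by exact_mod_cast hs)
    rw [← hS] at h1
    exact h1.2
  have hvF : ∀ k, v k ∈ Submodule.span ℝ ({x, y} : Set P) := by
    intro k
    refine Submodule.add_mem _ (Submodule.subset_span (by simp)) ?_
    exact Submodule.smul_mem _ _ (Submodule.subset_span (by simp))
  have hfib : ∀ k, T k = T0 → f (v k) = ‖v k‖ := by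
    intro k hk
    by_cases h0 : v k = 0
    · rw [h0]; simp
    have hn : 0 < ‖v k‖ := norm_pos_iff.2 h0
    have hmem : ‖v k‖⁻¹ • v k ∈ {x_1 | x_1 ∈ Submodule.span ℝ ({x, y} : Set P) ∧ ‖x_1‖ ≤ 1} := by
      refine ⟨Submodule.smul_mem _ _ (hvF k), ?_⟩
      rw [norm_smul, norm_inv, norm_norm, inv_mul_cancel₀ hn.ne']
    rw [hS, Finset.mem_convexHull'] at hmem
    obtain ⟨w, hw0, hw1, hw2⟩ := hmem
    have hgk : ∑ s ∈ S, w s * g (v k) s = 1 := by
      have h1 := congrArg (g (v k)) hw2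
      rw [map_sum, map_smul, hg2 (v k)] at h1
      simp only [map_smul, smul_eq_mul] at h1
      rw [h1, inv_mul_cancel₀ hn.ne']
    have hzero : ∑ s ∈ S, w s * (1 - g (v k) s) = 0 := by
      simp only [mul_sub, mul_one, Finset.sum_sub_distrib, hw1, hgk, sub_self]
    have hterm : ∀ s ∈ S, w s * (1 - g (v k) s) = 0 := by
      refine (Finset.sum_eq_zero_iff_of_nonneg fun s hs => ?_).1 hzero
      refine mul_nonneg (hw0 s hs) ?_
      have := hg1 (v k) s
      have := hSball s hs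
      linarith
    have hf1 : f (‖v k‖⁻¹ • v k) = 1 := by
      rw [← hw2, map_sum, ← hw1]
      refine Finset.sum_congr rfl fun s hs => ?_
      rw [map_smul, smul_eq_mul]
      rcases mul_eq_zero.1 (hterm s hs) with h | h
      · rw [h, zero_mul]
      · have h1 : (⟨s, hs⟩ : S) ∈ T k := by
          show g (v k) s = 1
          linarith
        rw [hk, ← show T k1 = T0 from hk1] at h1
        have h2 : f s = 1 := h1
        rw [h2, mul_one]
    rw [map_smul, smul_eq_mul] at hf1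
    field_simp at hf1
    exact hf1
  have hfx : f x = ‖x‖ := by
    have hcont : Tendsto (fun k : ℕ => ‖v k‖ - f (v k)) atTop (𝓝 (‖x‖ - f x)) := by
      have h1 : Tendsto v atTop (𝓝 x) := by
        have h2 : Tendsto (fun k : ℕ => (1 / ((k:ℝ) + 1)) • y) atTop (𝓝 ((0:ℝ) • y)) :=
          tendsto_one_div_add_atTop_nhds_zero_nat.smul_const y
        simpa [hv] using (tendsto_const_nhds (x := x)).add h2
      exact h1.norm.sub ((f.continuous.tendsto x).comp h1)
    by_contra hne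
    have hne' : ‖x‖ - f x ≠ 0 := fun h => hne (by linarith)
    have hev : ∀ᶠ k in atTop, ‖v k‖ - f (v k) ≠ 0 := hcont.eventually_ne hne'
    obtain ⟨K, hK⟩ := eventually_atTop.1 hev
    apply hinf
    refine (Set.finite_lt_nat K).subset ?_
    intro k hk
    by_contra hcon
    exact hK k (not_lt.1 hcon) (by rw [hfib k hk, sub_self])
  refine ⟨f, hg1 _, 1 / ((k1:ℝ) + 1), by positivity, fun t ht0 ht1 => ?_⟩
  set t1 : ℝ := 1 / ((k1:ℝ) + 1) with ht1def
  have ht1pos : 0 < t1 := by positivity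
  have hvk1 : f (x + t1 • y) = ‖x + t1 • y‖ := hfib k1 hk1
  apply le_antisymm
  · have e : x + t • y = (1 - t / t1) • x + (t / t1) • (x + t1 • y) := by
      rw [smul_add, smul_smul, div_mul_cancel₀ _ ht1pos.ne', sub_smul, one_smul]; abel
    have h1 : t / t1 ≤ 1 := (div_le_one ht1pos).2 ht1
    have h2 : 0 ≤ t / t1 := by positivity
    have h3 : ‖x + t • y‖ ≤ (1 - t / t1) * ‖x‖ + (t / t1) * ‖x + t1 • y‖ := by
      rw [e]
      refine (norm_add_le _ _).trans ?_
      rw [norm_smul, norm_smul, Real.norm_of_nonneg (by linarith), Real.norm_of_nonneg h2]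
    rw [← hfx, ← hvk1] at h3
    refine h3.trans (le_of_eq ?_)
    rw [map_add, map_smul, smul_eq_mul]
    have h4 : t / t1 * (t1 * f y) = t * f y := by
      rw [← mul_assoc, div_mul_cancel₀ _ ht1pos.ne']
    linear_combination h4
  · have := hg1 (v k1) (x + t • y)
    rw [← hf, map_add, map_smul, smul_eq_mul] at this
    exact this

/-- Points of differentiability of the norm are dense, and at such a point the norm coincides
with a functional along every ray. -/
lemma smooth_dense [CompleteSpace P] [TopologicalSpace.SeparableSpace P] (hP : Polyhedral P)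
    {U : Set P} (hU : IsOpen U) (hne : U.Nonempty) :
    ∃ z ∈ U, ∃ f : P →L[ℝ] ℝ, Sub f ∧ ∀ y, ∃ ε : ℝ, 0 < ε ∧
      ∀ t : ℝ, 0 ≤ t → t ≤ ε → ‖z + t • y‖ = f z + t * f y := by
  obtain ⟨d, hd⟩ := TopologicalSpace.exists_dense_seq P
  set O : ℕ × ℕ → Set P := fun jk =>
    ⋃ t : {t : ℝ // 0 < t}, {z | ‖z + t.1 • d jk.1‖ + ‖z - t.1 • d jk.1‖ - 2 * ‖z‖ <
      t.1 / ((jk.2:ℝ) + 1)} with hO
  have hOopen : ∀ jk, IsOpen (O jk) := by
    intro jk
    refine isOpen_iUnion fun t => ?_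
    refine isOpen_lt ?_ continuous_const
    fun_prop
  have hOdense : ∀ jk, Dense (O jk) := by
    intro jk
    rw [Metric.dense_iff]
    intro z r hr
    obtain ⟨f, hf, ε, hε, hray⟩ := ray hP z (d jk.1)
    set s : ℝ := min (ε / 2) (r / 2 / (‖d jk.1‖ + 1)) with hs
    have hs0 : 0 < s := by
      refine lt_min (by positivity) (by positivity)
    have hs1 : s ≤ ε / 2 := min_le_left _ _
    have hs2 : s ≤ r / 2 / (‖d jk.1‖ + 1) := min_le_right _ _
    refine ⟨z + s • d jk.1, ?_, ?_⟩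
    · rw [Metric.mem_ball, dist_eq_norm, add_sub_cancel_left, norm_smul, Real.norm_of_nonneg hs0.le]
      have h1 : 0 < ‖d jk.1‖ + 1 := by positivity
      rw [le_div_iff₀ h1] at hs2
      nlinarith [norm_nonneg (d jk.1)]
    · refine mem_iUnion.2 ⟨⟨s, hs0⟩, ?_⟩
      have e1 : z + s • d jk.1 + s • d jk.1 = z + (2 * s) • d jk.1 := by
        rw [add_assoc, ← two_smul ℝ (s • d jk.1), smul_smul]
      have e2 : z + s • d jk.1 - s • d jk.1 = z + (0:ℝ) • d jk.1 := by simp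
      show ‖z + s • d jk.1 + s • d jk.1‖ + ‖z + s • d jk.1 - s • d jk.1‖ -
        2 * ‖z + s • d jk.1‖ < s / ((jk.2:ℝ) + 1)
      rw [e1, e2, hray (2 * s) (by positivity) (by linarith), hray 0 le_rfl hε.le,
        hray s hs0.le (by linarith)]
      have : 0 < s / ((jk.2:ℝ) + 1) := by positivity
      linarith
  have hdense := dense_iInter_of_isOpen hOopen hOdense
  obtain ⟨z, hzU, hz⟩ := hdense.inter_open_nonempty U hU hne
  have huniq : ∀ g1 g2 : P →L[ℝ] ℝ, Sub g1 → Sub g2 → g1 z = ‖z‖ → g2 z = ‖z‖ → g1 = g2 := by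
    have hle : ∀ g1 g2 : P →L[ℝ] ℝ, Sub g1 → Sub g2 → g1 z = ‖z‖ → g2 z = ‖z‖ →
        ∀ j, g1 (d j) ≤ g2 (d j) := by
      intro g1 g2 h1 h2 h1z h2z j
      refine le_of_forall_pos_le_add fun η hη => ?_
      obtain ⟨k, hk⟩ := exists_nat_one_div_lt hη
      have hzjk := mem_iInter.1 hz (j, k)
      obtain ⟨⟨t, ht⟩, hzt⟩ := mem_iUnion.1 hzjk
      have h3 : ‖z + t • d j‖ + ‖z - t • d j‖ - 2 * ‖z‖ < t / ((k:ℝ) + 1) := hzt
      have h4 := h1 (z + t • d j)
      have h5 := h2 (z - t • d j)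
      rw [map_add, map_smul, smul_eq_mul, h1z] at h4
      rw [map_sub, map_smul, smul_eq_mul, h2z] at h5
      have h6 : t * (g1 (d j) - g2 (d j)) < t * (1 / ((k:ℝ) + 1)) := by
        have : t * (1 / ((k:ℝ) + 1)) = t / ((k:ℝ) + 1) := by ring
        rw [this]; linarith
      have h7 := lt_of_mul_lt_mul_left h6 ht.le
      linarith
    intro g1 g2 h1 h2 h1z h2z
    have heq : ∀ j, g1 (d j) = g2 (d j) := fun j =>
      le_antisymm (hle g1 g2 h1 h2 h1z h2z j) (hle g2 g1 h2 h1 h2z h1z j)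
    have hfun : (g1 : P → ℝ) = g2 := by
      refine Continuous.ext_on (s := range d) hd g1.continuous g2.continuous ?_
      rintro _ ⟨j, rfl⟩
      exact heq j
    exact DFunLike.coe_injective hfun
  obtain ⟨f, hf, hfz⟩ := exists_norming z
  refine ⟨z, hzU, f, hf, fun y => ?_⟩
  obtain ⟨g, hg, ε, hε, hray⟩ := ray hP z y
  have hgz : g z = ‖z‖ := by
    have := hray 0 le_rfl hε.le
    simpa using this.symm
  have : g = f := huniq g f hg hf hgz hfz
  subst this
  exact ⟨ε, hε, hray⟩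

/-- Every point lies on a facet functional. -/
lemma facet [CompleteSpace P] [TopologicalSpace.SeparableSpace P] (hP : Polyhedral P) (x : P) :
    ∃ f : P →L[ℝ] ℝ, Sub f ∧ f x = ‖x‖ ∧ (interior {z | f z = ‖z‖}).Nonempty := by
  -- Baire at `x`
  set C : ℕ → Set P := fun n => {y | ∀ t : ℝ, t ∈ Icc (0:ℝ) (1/((n:ℝ)+1)) →
    ‖x + t • y‖ = ‖x‖ + t * (((n:ℝ)+1) * (‖x + (1/((n:ℝ)+1)) • y‖ - ‖x‖))} with hC
  have hCcl : ∀ n, IsClosed (C n) := by
    intro n
    simp only [hC, ofPred_forall]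
    refine isClosed_iInter fun t => isClosed_iInter fun _ => ?_
    refine isClosed_eq ?_ ?_ <;> fun_prop
  have hCcov : ⋃ n, C n = univ := by
    refine eq_univ_of_forall fun y => ?_
    obtain ⟨f, hf, ε, hε, hray⟩ := ray hP x y
    obtain ⟨n, hn⟩ := exists_nat_one_div_lt hε
    refine mem_iUnion.2 ⟨n, fun t ht => ?_⟩
    have hx : ‖x‖ = f x := by simpa using hray 0 le_rfl hε.le
    rw [hray t ht.1 (ht.2.trans hn.le), hray (1/((n:ℝ)+1)) (by positivity) hn.le, hx]
    have : ((n:ℝ)+1) ≠ 0 := by positivity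
    field_simp
    ring
  obtain ⟨n, y0, hy0⟩ := nonempty_interior_of_iUnion_of_closed hCcl hCcov
  set a : ℝ := 1/((n:ℝ)+1) with ha
  have ha0 : 0 < a := by positivity
  -- the open set `x + a • interior (C n)`
  set U : Set P := {z | a⁻¹ • (z - x) ∈ interior (C n)} with hU
  have hUo : IsOpen U := by
    refine isOpen_interior.preimage ?_
    fun_prop
  have hUne : U.Nonempty := by
    refine ⟨x + a • y0, ?_⟩
    show a⁻¹ • (x + a • y0 - x) ∈ interior (C n)
    rw [add_sub_cancel_left, smul_smul, inv_mul_cancel₀ ha0.ne', one_smul]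
    exact hy0
  obtain ⟨z, hzU, f, hf, hz⟩ := smooth_dense hP hUo hUne
  have hfz : f z = ‖z‖ := by
    obtain ⟨ε, hε, h⟩ := hz 0
    simpa using (h 0 le_rfl hε.le).symm
  -- Baire at `z`
  set E : ℕ → Set P := fun m => {y | ∀ t : ℝ, t ∈ Icc (0:ℝ) (1/((m:ℝ)+1)) →
    ‖z + t • y‖ = f z + t * f y} with hE
  have hEcl : ∀ m, IsClosed (E m) := by
    intro m
    simp only [hE, ofPred_forall]
    refine isClosed_iInter fun t => isClosed_iInter fun _ => ?_
    refine isClosed_eq ?_ ?_ <;> fun_prop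
  have hEcov : ⋃ m, E m = univ := by
    refine eq_univ_of_forall fun y => ?_
    obtain ⟨ε, hε, hray⟩ := hz y
    obtain ⟨m, hm⟩ := exists_nat_one_div_lt hε
    exact mem_iUnion.2 ⟨m, fun t ht => hray t ht.1 (ht.2.trans hm.le)⟩
  obtain ⟨m, y1, hy1⟩ := nonempty_interior_of_iUnion_of_closed hEcl hEcov
  -- choose a small `τ` with `z + τ • y1 ∈ U`
  obtain ⟨τ, hτ0, hτ1, hτU⟩ : ∃ τ : ℝ, 0 < τ ∧ τ ≤ 1/((m:ℝ)+1) ∧ z + τ • y1 ∈ U := by
    have hcont : Tendsto (fun τ : ℝ => z + τ • y1) (𝓝[>] 0) (𝓝 z) := by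
      have h0 : Continuous fun τ : ℝ => z + τ • y1 := by fun_prop
      have h : Tendsto (fun τ : ℝ => z + τ • y1) (𝓝[>] (0:ℝ)) (𝓝 (z + (0:ℝ) • y1)) :=
        (h0.tendsto 0).mono_left nhdsWithin_le_nhds
      simpa using h
    have h1 : ∀ᶠ τ : ℝ in 𝓝[>] 0, z + τ • y1 ∈ U := hcont (hUo.mem_nhds hzU)
    have h2 : ∀ᶠ τ : ℝ in 𝓝[>] 0, τ ∈ Ioc (0:ℝ) (1/((m:ℝ)+1)) :=
      Ioc_mem_nhdsGT (by positivity)
    obtain ⟨τ, h3, h4⟩ := (h1.and h2).exists
    exact ⟨τ, h4.1, h4.2, h3⟩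
  set z' : P := z + τ • y1 with hz'
  have hint : z' ∈ interior {w | f w = ‖w‖} := by
    rw [mem_interior]
    refine ⟨{w | τ⁻¹ • (w - z) ∈ interior (E m)}, ?_, ?_, ?_⟩
    · intro w hw
      have h1 := interior_subset hw
      have h2 := h1 τ ⟨hτ0.le, hτ1⟩
      rw [smul_smul, mul_inv_cancel₀ hτ0.ne', one_smul, add_sub_cancel] at h2
      show f w = ‖w‖
      rw [h2, map_smul, smul_eq_mul, ← mul_assoc, mul_inv_cancel₀ hτ0.ne', one_mul, map_sub]
      ring
    · refine isOpen_interior.preimage ?_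
      fun_prop
    · show τ⁻¹ • (z + τ • y1 - z) ∈ interior (E m)
      rw [add_sub_cancel_left, smul_smul, inv_mul_cancel₀ hτ0.ne', one_smul]
      exact hy1
  refine ⟨f, hf, ?_, ⟨z', hint⟩⟩
  -- the segment from `x` to `z'`
  set u : P := a⁻¹ • (z' - x) with hu
  have hux : x + a • u = z' := by
    rw [hu, smul_smul, mul_inv_cancel₀ ha0.ne', one_smul]; abel
  have huC : u ∈ C n := interior_subset hτU
  have hseg : ∀ t : ℝ, t ∈ Icc (0:ℝ) a → ‖x + t • u‖ = ‖x‖ + t * (((n:ℝ)+1) *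
      (‖x + a • u‖ - ‖x‖)) := huC
  obtain ⟨t, ht0, ht1, ht⟩ : ∃ t : ℝ, 0 ≤ t ∧ t < a ∧ f (x + t • u) = ‖x + t • u‖ := by
    have hcont : Tendsto (fun t : ℝ => x + t • u) (𝓝[<] a) (𝓝 z') := by
      have h0 : Continuous fun t : ℝ => x + t • u := by fun_prop
      have h : Tendsto (fun t : ℝ => x + t • u) (𝓝[<] a) (𝓝 (x + a • u)) :=
        (h0.tendsto a).mono_left nhdsWithin_le_nhds
      rwa [hux] at h
    have h1 : ∀ᶠ t : ℝ in 𝓝[<] a, x + t • u ∈ interior {w | f w = ‖w‖} :=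
      hcont (isOpen_interior.mem_nhds hint)
    have h2 : ∀ᶠ t : ℝ in 𝓝[<] a, t ∈ Ico (0:ℝ) a := Ico_mem_nhdsLT ha0
    obtain ⟨t, h3, h4⟩ := (h1.and h2).exists
    have h5 : x + t • u ∈ {w | f w = ‖w‖} := interior_subset h3
    exact ⟨t, h4.1, h4.2, h5⟩
  have ha1 : f (x + a • u) = ‖x + a • u‖ := by
    rw [hux]
    have h5 : z' ∈ {w | f w = ‖w‖} := interior_subset hint
    exact h5
  have hs1 := hseg t ⟨ht0, ht1.le⟩
  set σ : ℝ := ((n:ℝ)+1) * (‖x + a • u‖ - ‖x‖) with hσ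
  have hs2 : ‖x + a • u‖ = ‖x‖ + a * σ := by
    rw [hσ, ha]
    have : ((n:ℝ)+1) ≠ 0 := by positivity
    field_simp
    ring
  rw [map_add, map_smul, smul_eq_mul] at ht ha1
  rw [hs1] at ht
  rw [hs2] at ha1
  -- `f x + t f u = ‖x‖ + t σ`, `f x + a f u = ‖x‖ + a σ`
  have h3 : (a - t) * (f u - σ) = 0 := by linarith
  rcases mul_eq_zero.1 h3 with h | h
  · linarith
  · have : f u = σ := by linarith
    rw [this] at ha1
    linarith

/-- The facet functionals form a countable set. -/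
lemma facets_countable [TopologicalSpace.SeparableSpace P] :
    {f : P →L[ℝ] ℝ | Sub f ∧ (interior {z | f z = ‖z‖}).Nonempty}.Countable := by
  refine Set.PairwiseDisjoint.countable_of_isOpen (s := fun f : P →L[ℝ] ℝ =>
    interior {z | f z = ‖z‖}) ?_ (fun f _ => isOpen_interior) (fun f hf => hf.2)
  intro f _ g _ hfg
  rw [Function.onFun, Set.disjoint_left]
  intro z hzf hzg
  apply hfg
  ext y
  have hcont : Tendsto (fun t : ℝ => z + t • y) (𝓝[>] 0) (𝓝 z) := by
    have h0 : Continuous fun t : ℝ => z + t • y := by fun_prop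
    have h : Tendsto (fun t : ℝ => z + t • y) (𝓝[>] (0:ℝ)) (𝓝 (z + (0:ℝ) • y)) :=
      (h0.tendsto 0).mono_left nhdsWithin_le_nhds
    simpa using h
  have h1 : ∀ᶠ t : ℝ in 𝓝[>] 0, z + t • y ∈ interior {w | f w = ‖w‖} :=
    hcont (isOpen_interior.mem_nhds hzf)
  have h2 : ∀ᶠ t : ℝ in 𝓝[>] 0, z + t • y ∈ interior {w | g w = ‖w‖} :=
    hcont (isOpen_interior.mem_nhds hzg)
  have h3 : ∀ᶠ t : ℝ in 𝓝[>] 0, 0 < t := self_mem_nhdsWithin
  obtain ⟨t, ⟨h4, h5⟩, h6⟩ := ((h1.and h2).and h3).exists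
  have h7' : z + t • y ∈ {w | f w = ‖w‖} := interior_subset h4
  have h8' : z + t • y ∈ {w | g w = ‖w‖} := interior_subset h5
  have h9' : z ∈ {w | f w = ‖w‖} := interior_subset hzf
  have h10' : z ∈ {w | g w = ‖w‖} := interior_subset hzg
  have h7 : f (z + t • y) = ‖z + t • y‖ := h7'
  have h8 : g (z + t • y) = ‖z + t • y‖ := h8'
  have h9 : f z = ‖z‖ := h9'
  have h10 : g z = ‖z‖ := h10'
  rw [map_add, map_smul, smul_eq_mul, h9] at h7
  rw [map_add, map_smul, smul_eq_mul, h10] at h8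
  have h11 : t * (f y - g y) = 0 := by linarith
  rcases mul_eq_zero.1 h11 with h | h
  · linarith
  · linarith

end poly

/-! ### `ℓ²` is not isomorphic to a polyhedral space -/

section hilbert

/-- The Hilbert space `ℓ²`. -/
abbrev H : Type := lp (fun _ : ℕ => ℝ) 2

instance sepH : TopologicalSpace.SeparableSpace H := by
  let b : HilbertBasis ℕ ℝ H := HilbertBasis.ofRepr (LinearIsometryEquiv.refl ℝ H)
  have h1 : TopologicalSpace.IsSeparable (range b) := (countable_range b).isSeparable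
  have h2 : TopologicalSpace.IsSeparable (Submodule.span ℝ (range b) : Set H) := h1.span
  have h3 : closure (Submodule.span ℝ (range b) : Set H) = univ := by
    have := b.dense_span
    rw [← Submodule.topologicalClosure_coe, this]; rfl
  have h4 := h2.closure
  rw [h3] at h4
  exact TopologicalSpace.isSeparable_univ_iff.1 h4

lemma not_finiteDimensional_H : ¬ FiniteDimensional ℝ H := by
  intro h
  let b : HilbertBasis ℕ ℝ H := HilbertBasis.ofRepr (LinearIsometryEquiv.refl ℝ H)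
  have := b.orthonormal.linearIndependent
  exact (this.finite).false

/-- a nonzero vector in the kernel of finitely many functionals -/
lemma exists_ker (L : List (H →L[ℝ] ℝ)) : ∃ w : H, w ≠ 0 ∧ ∀ l ∈ L, l w = 0 := by
  by_contra hcon
  push Not at hcon
  apply not_finiteDimensional_H
  let T : H →ₗ[ℝ] (Fin L.length → ℝ) := LinearMap.pi fun i => (L.get i : H →ₗ[ℝ] ℝ)
  refine Module.Finite.of_injective T ?_
  rw [← LinearMap.ker_eq_bot, LinearMap.ker_eq_bot']
  intro w hw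
  by_contra hne
  obtain ⟨l, hl, hlw⟩ := hcon w hne
  obtain ⟨i, hi⟩ := List.mem_iff_get.1 hl
  apply hlw
  have := congrFun hw i
  rw [← hi]
  exact this

variable {P : Type*} [NormedAddCommGroup P] [NormedSpace ℝ P]

/-- one step of the construction -/
lemma step (e : H ≃L[ℝ] P) (x : H) (L : List (H →L[ℝ] ℝ)) (c : ℝ) :
    ∃ x' : H, ‖e x‖ ≤ c → ((∀ l ∈ L, l x' = l x) ∧ ‖e x'‖ = c) := by
  by_cases hx : ‖e x‖ ≤ c
  swap
  · exact ⟨0, fun h => absurd h hx⟩
  obtain ⟨w, hw0, hw⟩ := exists_ker L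
  have hew : 0 < ‖e w‖ := by
    rw [norm_pos_iff]
    intro h
    exact hw0 (e.map_eq_zero_iff.1 h)
  have hc : 0 ≤ c := (norm_nonneg _).trans hx
  set T : ℝ := 2 * c / ‖e w‖ with hT
  have hT0 : 0 ≤ T := by positivity
  have hcont : ContinuousOn (fun t : ℝ => ‖e (x + t • w)‖) (Icc 0 T) := by
    apply Continuous.continuousOn
    fun_prop
  have hivt := intermediate_value_Icc hT0 hcont
  have h1 : c ∈ Icc (‖e (x + (0:ℝ) • w)‖) (‖e (x + T • w)‖) := by
    constructor
    · simpa using hx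
    · have h2 : ‖T • e w‖ = 2 * c := by
        rw [norm_smul, Real.norm_of_nonneg hT0, hT, div_mul_cancel₀ _ hew.ne']
      have h3 : ‖T • e w‖ ≤ ‖e (x + T • w)‖ + ‖e x‖ := by
        have : T • e w = e (x + T • w) - e x := by rw [map_add, map_smul]; abel
        rw [this]
        exact norm_sub_le _ _
      linarith
  obtain ⟨t, _, ht⟩ := hivt h1
  refine ⟨x + t • w, fun _ => ⟨fun l hl => ?_, ht⟩⟩
  rw [map_add, map_smul, hw l hl]
  simp

lemma no_boundary (e : H ≃L[ℝ] P) (f : ℕ → P →L[ℝ] ℝ) (hf : ∀ n, Sub (f n)) :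
    ∃ x : P, ∀ n, f n x ≠ ‖x‖ := by
  choose G hG using fun (x : H) (L : List (H →L[ℝ] ℝ)) (c : ℝ) => step e x L c
  set c : ℕ → ℝ := fun n => 1 - 1 / ((n:ℝ) + 1) with hc
  let nextL : ℕ → (H × List (H →L[ℝ] ℝ)) → List (H →L[ℝ] ℝ) := fun j p =>
    innerSL ℝ p.1 :: ((f j).comp (e : H →L[ℝ] P)) :: p.2
  let S : ℕ → H × List (H →L[ℝ] ℝ) := fun n => Nat.rec (0, [])
    (fun j p => (G p.1 (nextL j p) (c (j+1)), nextL j p)) n
  have hS0 : S 0 = (0, []) := rfl
  have hS1 : ∀ j, S (j+1) = (G (S j).1 (nextL j (S j)) (c (j+1)), nextL j (S j)) := fun j => rfl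
  set x : ℕ → H := fun j => (S j).1 with hx
  have hcmono : ∀ j, c j ≤ c (j+1) := by
    intro j
    simp only [hc]
    have : 1 / (((j+1:ℕ):ℝ) + 1) ≤ 1 / ((j:ℝ) + 1) := by
      apply one_div_le_one_div_of_le (by positivity)
      push_cast; linarith
    linarith
  have hnorm : ∀ j, ‖e (x j)‖ = c j := by
    intro j
    induction j with
    | zero => simp [hx, hS0, hc]
    | succ j ih =>
      have h1 := (hG (S j).1 (nextL j (S j)) (c (j+1))) (by
        rw [show ‖e (S j).1‖ = c j from ih]; exact hcmono j)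
      have h2 : x (j+1) = G (S j).1 (nextL j (S j)) (c (j+1)) := by
        simp only [hx, hS1]
      rw [h2]; exact h1.2
  have hstep : ∀ j, ∀ l ∈ (S (j+1)).2, l (x (j+1)) = l (x j) := by
    intro j l hl
    have h1 := (hG (S j).1 (nextL j (S j)) (c (j+1))) (by
        rw [show ‖e (S j).1‖ = c j from hnorm j]; exact hcmono j)
    have h2 : x (j+1) = G (S j).1 (nextL j (S j)) (c (j+1)) := by
        simp only [hx, hS1]
    rw [h2]; exact h1.1 l hl
  have hmono : ∀ m n, m ≤ n → ∀ l ∈ (S m).2, l ∈ (S n).2 := by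
    intro m n hmn
    induction n, hmn using Nat.le_induction with
    | base => exact fun l hl => hl
    | succ n _ ih =>
      intro l hl
      rw [hS1]
      exact List.mem_cons_of_mem _ (List.mem_cons_of_mem _ (ih l hl))
  have hconst : ∀ m, ∀ l ∈ (S (m+1)).2, ∀ n, m ≤ n → l (x n) = l (x m) := by
    intro m l hl n hmn
    induction n, hmn using Nat.le_induction with
    | base => rfl
    | succ n hmn ih =>
      rw [hstep n l (hmono (m+1) (n+1) (by omega) l hl), ih]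
  have hin1 : ∀ m, (innerSL ℝ (x m) : H →L[ℝ] ℝ) ∈ (S (m+1)).2 := by
    intro m
    rw [hS1]; exact List.mem_cons_self
  have hin2 : ∀ m, ((f m).comp (e : H →L[ℝ] P)) ∈ (S (m+1)).2 := by
    intro m
    rw [hS1]; exact List.mem_cons_of_mem _ List.mem_cons_self
  have hinner : ∀ m n, m ≤ n → inner ℝ (x m) (x n) = ‖x m‖^2 := by
    intro m n hmn
    have h1 := hconst m _ (hin1 m) n hmn
    rw [innerSL_apply_apply, innerSL_apply_apply, real_inner_self_eq_norm_sq] at h1
    exact h1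
  have hpyth : ∀ m n, m ≤ n → ‖x n - x m‖^2 = ‖x n‖^2 - ‖x m‖^2 := by
    intro m n hmn
    rw [@norm_sub_sq_real]
    rw [real_inner_comm, hinner m n hmn]; ring
  -- the squares of the norms are monotone and bounded
  have hmono2 : Monotone fun n => ‖x n‖^2 := by
    intro m n hmn
    have := hpyth m n hmn
    have h2 : 0 ≤ ‖x n - x m‖^2 := by positivity
    simp only
    linarith
  have hbdd : BddAbove (range fun n => ‖x n‖^2) := by
    refine ⟨‖(e.symm : P →L[ℝ] H)‖^2, ?_⟩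
    rintro _ ⟨n, rfl⟩
    have h1 : ‖x n‖ ≤ ‖(e.symm : P →L[ℝ] H)‖ * ‖e (x n)‖ := by
      have := (e.symm : P →L[ℝ] H).le_opNorm (e (x n))
      simpa using this
    have h2 : ‖e (x n)‖ ≤ 1 := by
      rw [hnorm n]
      simp only [hc]
      have : 0 ≤ 1 / ((n:ℝ) + 1) := by positivity
      linarith
    have h3 : ‖x n‖ ≤ ‖(e.symm : P →L[ℝ] H)‖ := by
      nlinarith [norm_nonneg (e.symm : P →L[ℝ] H)]
    simp only
    gcongr
  have hlim := tendsto_atTop_ciSup hmono2 hbdd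
  have hcauchy : CauchySeq x := by
    rw [Metric.cauchySeq_iff']
    intro ε hε
    have hc2 := hlim.cauchySeq
    rw [Metric.cauchySeq_iff'] at hc2
    obtain ⟨N, hN⟩ := hc2 (ε^2) (by positivity)
    refine ⟨N, fun n hn => ?_⟩
    have h1 := hN n hn
    rw [Real.dist_eq] at h1
    have h2 := hpyth N n hn
    have h3 : ‖x n - x N‖^2 < ε^2 := by
      rw [h2]; exact (le_abs_self _).trans_lt h1
    rw [dist_eq_norm]
    exact lt_of_pow_lt_pow_left₀ 2 hε.le h3
  obtain ⟨z, hz⟩ := cauchySeq_tendsto_of_complete hcauchy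
  have hez : ‖e z‖ = 1 := by
    have h1 : Tendsto (fun n => ‖e (x n)‖) atTop (𝓝 ‖e z‖) :=
      ((e.continuous.tendsto z).comp hz).norm
    have h2 : Tendsto (fun n => ‖e (x n)‖) atTop (𝓝 1) := by
      simp only [hnorm, hc]
      have := tendsto_one_div_add_atTop_nhds_zero_nat (𝕜 := ℝ)
      simpa using (tendsto_const_nhds (x := (1:ℝ))).sub this
    exact tendsto_nhds_unique h1 h2
  refine ⟨e z, fun m hm => ?_⟩
  have h1 : (f m) (e z) = (f m) (e (x m)) := by
    have h2 : Tendsto (fun n => (f m) (e (x n))) atTop (𝓝 ((f m) (e z))) :=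
      ((f m).continuous.tendsto _).comp ((e.continuous.tendsto z).comp hz)
    have h3 : ∀ n, m ≤ n → (f m) (e (x n)) = (f m) (e (x m)) := by
      intro n hmn
      exact hconst m _ (hin2 m) n hmn
    have h4 : Tendsto (fun n => (f m) (e (x n))) atTop (𝓝 ((f m) (e (x m)))) := by
      refine tendsto_const_nhds.congr' ?_
      filter_upwards [eventually_ge_atTop m] with n hn using (h3 n hn).symm
    exact tendsto_nhds_unique h2 h4
  have h5 := hf m (e (x m))
  rw [hnorm m] at h5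
  have h6 : c m < 1 := by
    simp only [hc]
    have : 0 < 1 / ((m:ℝ) + 1) := by positivity
    linarith
  rw [h1, hez] at hm
  linarith

theorem not_polyhedral (P : Type*) [NormedAddCommGroup P] [NormedSpace ℝ P]
    (hP : Polyhedral P) (e : H ≃L[ℝ] P) : False := by
  have : CompleteSpace P :=
    (completeSpace_congr (e := e.toEquiv) e.isUniformEmbedding).1 inferInstance
  have : TopologicalSpace.SeparableSpace P :=
    e.surjective.denseRange.separableSpace e.continuous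
  have hcount := facets_countable (P := P)
  obtain ⟨g0, hg0, hg1, hg2⟩ := facet hP (0 : P)
  obtain ⟨f, hf⟩ := hcount.exists_eq_range ⟨g0, hg0, hg2⟩
  have hfs : ∀ n, Sub (f n) := by
    intro n
    have : f n ∈ {f : P →L[ℝ] ℝ | Sub f ∧ (interior {z | f z = ‖z‖}).Nonempty} := by
      rw [hf]; exact mem_range_self n
    exact this.1
  obtain ⟨x, hx⟩ := no_boundary e f hfs
  obtain ⟨g, h1, h2, h3⟩ := facet hP x
  have : g ∈ {f : P →L[ℝ] ℝ | Sub f ∧ (interior {z | f z = ‖z‖}).Nonempty} := ⟨h1, h3⟩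
  rw [hf] at this
  obtain ⟨n, rfl⟩ := this
  exact hx n h2

end hilbert

/-! ### The metric space -/

section space

/-- The closed set of balls: a dense `G_δ` subset of `ℓ²`. -/
def G (d : ℕ → H) : Set H := ⋂ n : ℕ, ⋃ k : ℕ, ⋃ _ : n ≤ k, Metric.ball (d k) (1 / ((k:ℝ) + 1))

lemma exists_dense_rep : ∃ d : ℕ → H, ∀ n : ℕ, ∀ z : H, ∀ r : ℝ, 0 < r → ∃ k, n ≤ k ∧ dist (d k) z < r := by
  obtain ⟨d, hd⟩ := TopologicalSpace.exists_dense_seq H
  refine ⟨fun k => d k.unpair.1, fun n z r hr => ?_⟩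
  obtain ⟨y, hy, i, rfl⟩ := Metric.dense_iff.1 hd z r hr
  refine ⟨Nat.pair i n, Nat.right_le_pair i n, ?_⟩
  simpa using hy

lemma open_part (d : ℕ → H) (n : ℕ) :
    IsOpen (⋃ k : ℕ, ⋃ _ : n ≤ k, Metric.ball (d k) (1 / ((k:ℝ) + 1))) :=
  isOpen_iUnion fun _ => isOpen_iUnion fun _ => Metric.isOpen_ball

lemma dense_part {d : ℕ → H}
    (hd : ∀ n : ℕ, ∀ z : H, ∀ r : ℝ, 0 < r → ∃ k, n ≤ k ∧ dist (d k) z < r) (n : ℕ) :
    Dense (⋃ k : ℕ, ⋃ _ : n ≤ k, Metric.ball (d k) (1 / ((k:ℝ) + 1))) := by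
  rw [Metric.dense_iff]
  intro z r hr
  obtain ⟨k, hk, h⟩ := hd n z r hr
  exact ⟨d k, h, mem_iUnion.2 ⟨k, mem_iUnion.2 ⟨hk, Metric.mem_ball_self (by positivity)⟩⟩⟩

/-- Every vector of `ℓ²` is a difference of two elements of `G`. -/
lemma G_sub_G {d : ℕ → H}
    (hd : ∀ n : ℕ, ∀ z : H, ∀ r : ℝ, 0 < r → ∃ k, n ≤ k ∧ dist (d k) z < r) (v : H) :
    ∃ x ∈ G d, ∃ y ∈ G d, x - y = v := by
  have h1 : Dense (⋂ n : ℕ, (⋃ k : ℕ, ⋃ _ : n ≤ k, Metric.ball (d k) (1 / ((k:ℝ) + 1)))) :=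
    dense_iInter_of_isOpen (open_part d) (dense_part hd)
  have h2 : Dense (⋂ n : ℕ, (Homeomorph.subRight v) ⁻¹'
      (⋃ k : ℕ, ⋃ _ : n ≤ k, Metric.ball (d k) (1 / ((k:ℝ) + 1)))) := by
    refine dense_iInter_of_isOpen (fun n => (open_part d n).preimage (Homeomorph.continuous _))
      (fun n => ?_)
    exact (dense_part hd n).preimage (Homeomorph.isOpenMap _)
  have h3 : Dense ((⋂ n : ℕ, (⋃ k : ℕ, ⋃ _ : n ≤ k, Metric.ball (d k) (1 / ((k:ℝ) + 1)))) ∩
      (⋂ n : ℕ, (Homeomorph.subRight v) ⁻¹'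
      (⋃ k : ℕ, ⋃ _ : n ≤ k, Metric.ball (d k) (1 / ((k:ℝ) + 1))))) := by
    refine h1.inter_of_Gδ ?_ ?_ h2
    · exact .iInter_of_isOpen (open_part d)
    · exact .iInter_of_isOpen fun n => (open_part d n).preimage (Homeomorph.continuous _)
  obtain ⟨x, hx1, hx2⟩ := h3.nonempty
  refine ⟨x, hx1, x - v, ?_, by abel⟩
  rw [← preimage_iInter] at hx2
  exact hx2

lemma smallBall_G {d : ℕ → H} (hne : (G d).Nonempty) : SmallBall (G d) := by
  intro ε hε
  obtain ⟨n0, hn0⟩ := exists_nat_one_div_lt (show (0:ℝ) < ε / 2 by positivity)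
  classical
  obtain ⟨o, ho⟩ := hne
  let c : ℕ → G d := fun n =>
    if h : ∃ x : G d, x.1 ∈ Metric.ball (d (n0 + n)) (1 / (((n0 + n : ℕ):ℝ) + 1))
    then h.choose else ⟨o, ho⟩
  refine ⟨c, fun n => 2 * (1 / (((n0 + n : ℕ):ℝ) + 1)), ?_, fun n => ⟨by positivity, ?_⟩, ?_⟩
  · refine eq_univ_of_forall fun x => ?_
    have hx := mem_iInter.1 x.2 n0
    obtain ⟨k, hk⟩ := mem_iUnion.1 hx
    obtain ⟨hk0, hk1⟩ := mem_iUnion.1 hk
    obtain ⟨m, rfl⟩ := Nat.exists_eq_add_of_le hk0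
    refine mem_iUnion.2 ⟨m, ?_⟩
    have hex : ∃ x : G d, x.1 ∈ Metric.ball (d (n0 + m)) (1 / (((n0 + m : ℕ):ℝ) + 1)) := ⟨x, hk1⟩
    have hc : (c m).1 ∈ Metric.ball (d (n0 + m)) (1 / (((n0 + m : ℕ):ℝ) + 1)) := by
      simp only [c, dif_pos hex]
      exact hex.choose_spec
    rw [Metric.mem_closedBall, Subtype.dist_eq]
    rw [Metric.mem_ball] at hk1 hc
    have := dist_triangle_right x.1 (c m).1 (d (n0 + m))
    linarith
  · have h1 : 1 / (((n0 + n : ℕ):ℝ) + 1) ≤ 1 / ((n0:ℝ) + 1) := by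
      apply one_div_le_one_div_of_le (by positivity)
      push_cast
      have : (0:ℝ) ≤ n := Nat.cast_nonneg n
      linarith
    linarith
  · have h1 := tendsto_one_div_add_atTop_nhds_zero_nat (𝕜 := ℝ)
    have h2 : Tendsto (fun n => n0 + n) atTop atTop := tendsto_atTop_mono (fun n => Nat.le_add_left n n0) tendsto_id
    have h3 := (h1.comp h2).const_mul 2
    rw [mul_zero] at h3
    exact h3

/-- The linear isometry `ℓ² → Lip₀(M)`. -/
noncomputable def J (d : ℕ → H) (o : G d) : H →ₗ[ℝ] Lip0 (G d) o where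
  toFun h := ⟨fun x => inner ℝ h (x.1 - o.1), by simp, ‖h‖, fun x y => by
    simp only
    rw [← inner_sub_right, Subtype.dist_eq, dist_eq_norm]
    have : x.1 - o.1 - (y.1 - o.1) = x.1 - y.1 := by abel
    rw [this]
    exact abs_real_inner_le_norm _ _⟩
  map_add' h h' := by
    apply Subtype.ext
    funext x
    exact inner_add_left _ _ _
  map_smul' c h := by
    apply Subtype.ext
    funext x
    exact real_inner_smul_left _ _ _

lemma J_apply {d : ℕ → H} {o : G d} (h : H) (x y : G d) :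
    (J d o h).1 x - (J d o h).1 y = inner ℝ h (x.1 - y.1) := by
  show inner ℝ h (x.1 - o.1) - inner ℝ h (y.1 - o.1) = _
  rw [← inner_sub_right]
  congr 1
  abel

lemma J_norm {d : ℕ → H} {o : G d}
    (hd : ∀ n : ℕ, ∀ z : H, ∀ r : ℝ, 0 < r → ∃ k, n ≤ k ∧ dist (d k) z < r) (h : H) :
    ‖J d o h‖ = ‖h‖ := by
  apply le_antisymm
  · refine lipNorm_le (norm_nonneg _) fun x y => ?_
    rw [J_apply, Subtype.dist_eq, dist_eq_norm]
    exact abs_real_inner_le_norm _ _
  · obtain ⟨x, hx, y, hy, hxy⟩ := G_sub_G hd h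
    have h1 := le_lipNorm (J d o h) ⟨x, hx⟩ ⟨y, hy⟩
    rw [J_apply, Subtype.dist_eq, dist_eq_norm, hxy, real_inner_self_eq_norm_sq, abs_of_nonneg
      (by positivity), sq] at h1
    by_cases h0 : ‖h‖ = 0
    · rw [h0]; exact norm_nonneg _
    · exact le_of_mul_le_mul_right h1 (lt_of_le_of_ne (norm_nonneg _) (Ne.symm h0))

lemma J_sna {d : ℕ → H} {o : G d}
    (hd : ∀ n : ℕ, ∀ z : H, ∀ r : ℝ, 0 < r → ∃ k, n ≤ k ∧ dist (d k) z < r)
    (hnt : Nontrivial (G d)) (h : H) : SNA (J d o h) := by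
  by_cases h0 : h = 0
  · subst h0
    obtain ⟨x, y, hxy⟩ := hnt
    refine ⟨x, y, hxy, ?_⟩
    rw [J_apply, inner_zero_left, map_zero, norm_zero, abs_zero, zero_div]
  · obtain ⟨x, hx, y, hy, hxy⟩ := G_sub_G hd h
    refine ⟨⟨x, hx⟩, ⟨y, hy⟩, ?_, ?_⟩
    · intro he
      have : x = y := congrArg Subtype.val he
      rw [this, sub_self] at hxy
      exact h0 hxy.symm
    · rw [J_norm hd, J_apply, Subtype.dist_eq, dist_eq_norm, hxy, real_inner_self_eq_norm_sq,
        abs_of_nonneg (by positivity), sq]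
      have : ‖h‖ ≠ 0 := norm_ne_zero_iff.2 h0
      field_simp

end space

theorem result : ∃ (M : Type) (_ : MetricSpace M) (o : M), Nontrivial M ∧ SmallBall M ∧
    ∃ Y : Submodule ℝ (Lip0 M o), IsClosed (Y : Set (Lip0 M o)) ∧ (∀ f ∈ Y, SNA f) ∧
      Nonempty (Y ≃ₗᵢ[ℝ] lp (fun _ : ℕ => ℝ) 2) ∧
      ∀ (P : Type*) [NormedAddCommGroup P] [NormedSpace ℝ P],
        Polyhedral P → IsEmpty (Y ≃L[ℝ] P) := by
  obtain ⟨d, hd⟩ := exists_dense_rep
  obtain ⟨v, hv, -⟩ := exists_ker []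
  obtain ⟨x, hx, y, hy, hxy⟩ := G_sub_G hd v
  have hnt : Nontrivial (G d) := by
    refine ⟨⟨x, hx⟩, ⟨y, hy⟩, fun he => hv ?_⟩
    have : x = y := congrArg Subtype.val he
    rw [this, sub_self] at hxy
    exact hxy.symm
  let o : G d := ⟨x, hx⟩
  let I : H →ₗᵢ[ℝ] Lip0 (G d) o := ⟨J d o, J_norm hd⟩
  refine ⟨G d, inferInstance, o, hnt, smallBall_G ⟨x, hx⟩, LinearMap.range I.toLinearMap, ?_, ?_,
    ⟨I.equivRange.symm⟩, ?_⟩
  · have := I.isometry.isClosedEmbedding.isClosed_range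
    exact this
  · rintro _ ⟨h, rfl⟩
    exact J_sna hd hnt h
  · intro P _ _ hP
    refine ⟨fun e => ?_⟩
    exact not_polyhedral P hP (I.equivRange.toContinuousLinearEquiv.trans e)

end Pool.Agent.Results.MP_8cd1d0_an.HilbertInSNA
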